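import Pool.Agent.Y140.AW.Stm

/-! Project AW (helper140), job AW-ZERO (helper730): the points over `s = 0`. -/

set_option autoImplicit false

namespace Pool.Agent.Y730.AW

open Polynomial Pool.Agent.Y140.AW

section

variable {K N : Type} [Field K] [Field N] [Algebra K N]

/-- derivatives of `p`-th powers vanish -/
lemma der_pow {p : ℕ} (hp : (p : N) = 0) (h : N[X]) : derivative (h ^ p) = 0 := by
  rw [derivative_pow, hp]
  simp

lemma der_GG {p : ℕ} (hp : (p : N) = 0) (D : K[X]) (B : ℕ) {m : ℕ} (ν : Fin m → N) :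
    derivative (GG D p B ν) = (D.map (algebraMap K N)) ^ p := by
  unfold GG
  have hs : derivative (∑ a : Fin m, C (ν a) * X ^ (p * (a : ℕ))) = 0 := by
    rw [derivative_sum]
    refine Finset.sum_eq_zero fun a _ => ?_
    rw [derivative_C_mul, pow_mul, ← pow_mul, mul_comm p, pow_mul, der_pow hp, mul_zero]
  rw [derivative_add, derivative_add, derivative_mul, derivative_mul, der_pow hp, der_pow hp, hs, derivative_X]
  ring

/-- the small part of `G` -/
lemma deg_small {p : ℕ} (hp : 2 ≤ p) {B m : ℕ} (hB : 1 ≤ B) (hm : m ≤ B) (ν : Fin m → N) :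
    (X + ∑ a : Fin m, C (ν a) * X ^ (p * (a : ℕ)) : N[X]).natDegree ≤ p * B - 1 := by
  have h0 : 2 ≤ p * B := by nlinarith
  refine (natDegree_add_le _ _).trans (max_le ?_ ?_)
  · rw [natDegree_X]
    omega
  · refine natDegree_sum_le_of_forall_le _ _ fun a _ => ?_
    refine (natDegree_C_mul_X_pow_le _ _).trans ?_
    have h1 : (a : ℕ) + 1 ≤ B := by
      have := a.2
      omega
    have h2 : p * ((a : ℕ) + 1) ≤ p * B := Nat.mul_le_mul_left p h1
    rw [mul_add, mul_one] at h2
    omega

lemma deg_big {D : K[X]} (hD : D ≠ 0) {B : ℕ} (hB : 1 ≤ B) :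
    (X ^ B * D.map (algebraMap K N) + 1 : N[X]).natDegree = B + D.natDegree ∧
      (X ^ B * D.map (algebraMap K N) + 1 : N[X]).leadingCoeff = algebraMap K N D.leadingCoeff := by
  have hDm : D.map (algebraMap K N) ≠ 0 := (Polynomial.map_ne_zero_iff (algebraMap K N).injective).2 hD
  have h1 : (X ^ B * D.map (algebraMap K N) : N[X]).natDegree = B + D.natDegree := by
    rw [natDegree_mul (pow_ne_zero _ X_ne_zero) hDm, natDegree_X_pow, natDegree_map]
  have h2 : (1 : N[X]).natDegree < (X ^ B * D.map (algebraMap K N) : N[X]).natDegree := by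
    rw [h1, natDegree_one]
    omega
  refine ⟨by rw [natDegree_add_eq_left_of_natDegree_lt h2, h1], ?_⟩
  rw [leadingCoeff_add_of_degree_lt' (degree_lt_degree h2), leadingCoeff_mul, leadingCoeff_X_pow, one_mul,
    leadingCoeff_map]

lemma deg_GG {p : ℕ} (hp : 2 ≤ p) {D : K[X]} (hD : D ≠ 0) {B m : ℕ} (hB : 1 ≤ B) (hm : m ≤ B) (ν : Fin m → N) :
    (GG D p B ν).natDegree = p * (B + D.natDegree) ∧
      (GG D p B ν).leadingCoeff = (algebraMap K N D.leadingCoeff) ^ p := by
  obtain ⟨h1, h2⟩ := deg_big (N := N) hD hB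
  have h3 := deg_small hp hB hm ν
  set big := (X ^ B * D.map (algebraMap K N) + 1 : N[X]) with hbig
  set small := (X + ∑ a : Fin m, C (ν a) * X ^ (p * (a : ℕ)) : N[X]) with hsmall
  have h0 : 2 ≤ p * B := by nlinarith
  have e1 : GG D p B ν = big ^ p + (D.map (algebraMap K N)) ^ p * small := by
    rw [hbig, hsmall]
    unfold GG
    ring
  have h4 : (big ^ p).natDegree = p * (B + D.natDegree) := by rw [natDegree_pow, h1]
  have h5 : ((D.map (algebraMap K N)) ^ p * small).natDegree < (big ^ p).natDegree := by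
    rw [h4]
    refine lt_of_le_of_lt natDegree_mul_le ?_
    rw [natDegree_pow, natDegree_map, mul_add]
    omega
  rw [e1]
  refine ⟨by rw [natDegree_add_eq_left_of_natDegree_lt h5, h4], ?_⟩
  rw [leadingCoeff_add_of_degree_lt' (degree_lt_degree h5), leadingCoeff_pow, h2]

lemma eval_GG {p : ℕ} (hp : p ≠ 0) {D : K[X]} {B m : ℕ} (ν : Fin m → N) {a : N}
    (ha : (D.map (algebraMap K N)).eval a = 0) : (GG D p B ν).eval a = 1 := by
  unfold GG
  rw [eval_add, eval_add, eval_mul, eval_mul, eval_pow, eval_pow, ha, eval_add, eval_mul, ha, eval_one, zero_pow hp]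
  simp

end

theorem t_zero (h : St_res) : St_zero := by
  intro p hpp K N _ _ _ _ _ Θ D₀ D d B m hdd hbb hD hBe ν
  classical
  have hp := hpp.out
  have _ : CharP N p := charP_of_injective_algebraMap (algebraMap K N).injective p
  have hp0 : (p : N) = 0 := CharP.cast_eq_zero N p
  have hD0 : D₀ ≠ 0 := hdd.ne
  have hDne : D ≠ 0 := by
    rw [hD]
    exact pow_ne_zero _ hD0
  obtain ⟨hdeg, hlc⟩ := deg_GG (N := N) hp.two_le hDne hbb.one hbb.m ν
  set g := GG D p B ν with hg
  set k := p * (B + D.natDegree) with hk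
  have hg0 : g ≠ 0 := by
    intro h0
    rw [h0, leadingCoeff_zero] at hlc
    exact pow_ne_zero _ ((_root_.map_ne_zero _).2 (leadingCoeff_ne_zero.2 hDne)) hlc.symm
  have hev : ∀ a : N, aeval a D = (D.map (algebraMap K N)).eval a := fun a => by
    rw [eval_map_algebraMap]
  have hev0 : ∀ a : N, aeval a D₀ = (D₀.map (algebraMap K N)).eval a := fun a => by
    rw [eval_map_algebraMap]
  -- at the roots of `g` the polynomial `D` does not vanish
  have hDa : ∀ a : N, g.eval a = 0 → aeval a D ≠ 0 := by
    intro a ha h0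
    rw [hev] at h0
    rw [hg, eval_GG hp.ne_zero ν h0] at ha
    exact one_ne_zero ha
  have hD0a : ∀ a : N, g.eval a = 0 → aeval a D₀ ≠ 0 := by
    intro a ha h0
    apply hDa a ha
    rw [hD, map_pow, h0]
    simp
  have hnod : g.roots.Nodup := by
    rw [Multiset.nodup_iff_count_le_one]
    intro a
    rw [count_roots]
    by_contra hcon
    push Not at hcon
    obtain ⟨h1, h2⟩ := (one_lt_rootMultiplicity_iff_isRoot hg0).1 hcon
    have h3 : (derivative g).eval a = 0 := h2
    rw [hg, der_GG hp0, eval_pow] at h3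
    exact hDa a h1 (by rw [hev]; exact pow_eq_zero_iff hp.ne_zero |>.1 h3)
  have hspl : g.Splits := IsAlgClosed.splits g
  have hcard : Multiset.card g.roots = k := by rw [← hspl.natDegree_eq_card_roots, hdeg]
  -- the fibres
  have hfib : ∀ a : N, g.eval a = 0 → ((tA Θ a).roots.toFinset).card = d ∧
      (∀ b, b ∈ (tA Θ a).roots.toFinset ↔ (tA Θ a).eval b = 0) ∧
      ∏ b ∈ (tA Θ a).roots.toFinset, tZ Θ a b = aeval a D₀ := by
    intro a ha
    obtain ⟨b, hb1, hb2, hb3⟩ := h K N Θ D₀ d hdd a (hD0a a ha)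
    have hmon : (tA Θ a).Monic := hdd.monic.map _
    have hmem : ∀ c, c ∈ (tA Θ a).roots.toFinset ↔ (tA Θ a).eval c = 0 := by
      intro c
      rw [Multiset.mem_toFinset, mem_roots hmon.ne_zero]
      rfl
    have heq : (tA Θ a).roots.toFinset = Finset.univ.image b := by
      ext c
      rw [hmem, hb2, Finset.mem_image]
      constructor
      · rintro ⟨i, hi⟩
        exact ⟨i, Finset.mem_univ _, hi.symm⟩
      · rintro ⟨i, -, hi⟩
        exact ⟨i, hi.symm⟩
    refine ⟨?_, hmem, ?_⟩
    · rw [heq, Finset.card_image_of_injective _ hb1, Finset.card_univ, Fintype.card_fin]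
    · rw [heq, Finset.prod_image fun i _ j _ hij => hb1 hij, hb3]
  have hmemg : ∀ a, a ∈ g.roots.toFinset ↔ g.eval a = 0 := by
    intro a
    rw [Multiset.mem_toFinset, mem_roots hg0]
    rfl
  let S : Finset (N × N) := ((g.roots.toFinset).sigma fun a => (tA Θ a).roots.toFinset).map
    (Equiv.sigmaEquivProd N N).toEmbedding
  have hS : ∀ z : N × N, z ∈ S ↔ g.eval z.1 = 0 ∧ (tA Θ z.1).eval z.2 = 0 := by
    rintro ⟨a, b⟩
    show (a, b) ∈ ((g.roots.toFinset).sigma fun a => (tA Θ a).roots.toFinset).map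
      (Equiv.sigmaEquivProd N N).toEmbedding ↔ _
    rw [Finset.mem_map]
    constructor
    · rintro ⟨⟨a', b'⟩, h1, h2⟩
      rw [Finset.mem_sigma] at h1
      have h3 : (a', b') = (a, b) := h2
      rw [Prod.mk.injEq] at h3
      obtain ⟨rfl, rfl⟩ := h3
      have h4 := (hmemg a').1 h1.1
      exact ⟨h4, ((hfib a' h4).2.1 b').1 h1.2⟩
    · rintro ⟨h1, h2⟩
      exact ⟨⟨a, b⟩, Finset.mem_sigma.2 ⟨(hmemg a).2 h1, ((hfib a h1).2.1 b).2 h2⟩, rfl⟩
  refine ⟨S, hS, fun z hz => hDa z.1 ((hS z).1 hz).1, ?_, ?_⟩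
  · show (((g.roots.toFinset).sigma fun a => (tA Θ a).roots.toFinset).map
      (Equiv.sigmaEquivProd N N).toEmbedding).card = _
    rw [Finset.card_map, Finset.card_sigma, Finset.sum_congr rfl fun a ha => (hfib a ((hmemg a).1 ha)).1,
      Finset.sum_const, Multiset.toFinset_card_of_nodup hnod, hcard, smul_eq_mul, mul_comm]
  · -- the product
    have h1 : ∏ z ∈ S, tZ Θ z.1 z.2 = (g.roots.map fun a => (D₀.map (algebraMap K N)).eval a).prod := by
      show ∏ z ∈ ((g.roots.toFinset).sigma fun a => (tA Θ a).roots.toFinset).map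
        (Equiv.sigmaEquivProd N N).toEmbedding, tZ Θ z.1 z.2 = _
      rw [Finset.prod_map]
      have e1 : ∏ x ∈ (g.roots.toFinset).sigma fun a => (tA Θ a).roots.toFinset,
          tZ Θ ((Equiv.sigmaEquivProd N N).toEmbedding x).1 ((Equiv.sigmaEquivProd N N).toEmbedding x).2 =
          ∏ a ∈ g.roots.toFinset, ∏ b ∈ (tA Θ a).roots.toFinset, tZ Θ a b :=
        Finset.prod_sigma _ _ _
      rw [e1, Finset.prod_congr rfl fun a ha => (hfib a ((hmemg a).1 ha)).2.2,
        Finset.prod_congr rfl fun a _ => hev0 a]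
      show ((g.roots.toFinset).val.map _).prod = _
      rw [Multiset.toFinset_val, Multiset.dedup_eq_self.2 hnod]
    rw [h1]
    set E := D₀.map (algebraMap K N) with hE
    have hEspl : E.Splits := IsAlgClosed.splits E
    set X1 := (g.roots.map fun a => (E.roots.map fun β => a - β).prod).prod with hX1
    have h2 : (g.roots.map fun a => E.eval a).prod = E.leadingCoeff ^ k * X1 := by
      have e1 : (g.roots.map fun a => E.eval a) = g.roots.map fun a => E.leadingCoeff * (E.roots.map fun β => a - β).prod :=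
        Multiset.map_congr rfl fun a _ => hEspl.eval_eq_prod_roots a
      rw [e1, Multiset.prod_map_mul, Multiset.map_const', Multiset.prod_replicate, hcard]
    have hkev : Even k := by
      rw [hk, hD, natDegree_pow]
      refine Even.mul_left ?_ p
      refine Even.add hBe ⟨2 * D₀.natDegree, by ring⟩
    have h3 : X1 = (E.roots.map fun β => (g.roots.map fun a => β - a).prod).prod := by
      rw [hX1, Multiset.prod_map_prod_map]
      congr 1
      refine Multiset.map_congr rfl fun β _ => ?_
      have e1 : (g.roots.map fun a => a - β) = g.roots.map fun a => (-1) * (β - a) :=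
        Multiset.map_congr rfl fun a _ => by ring
      rw [e1, Multiset.prod_map_mul, Multiset.map_const', Multiset.prod_replicate, hcard, hkev.neg_one_pow, one_mul]
    have h4 : g.leadingCoeff ^ D₀.natDegree * X1 = 1 := by
      have e1 : (E.roots.map fun β => g.eval β) = E.roots.map fun β => g.leadingCoeff * (g.roots.map fun a => β - a).prod :=
        Multiset.map_congr rfl fun β _ => hspl.eval_eq_prod_roots β
      have e2 : (E.roots.map fun β => g.eval β).prod = 1 := by
        have e3 : (E.roots.map fun β => g.eval β) = E.roots.map fun _ => (1 : N) := by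
          refine Multiset.map_congr rfl fun β hβ => ?_
          refine eval_GG hp.ne_zero ν ?_
          have e4 : E.eval β = 0 := (mem_roots'.1 hβ).2
          rw [hD, Polynomial.map_pow, eval_pow, ← hE, e4]
          simp
        rw [e3]
        simp
      rw [e1, Multiset.prod_map_mul, Multiset.map_const', Multiset.prod_replicate, ← h3] at e2
      have e5 : Multiset.card E.roots = D₀.natDegree := by
        rw [← hEspl.natDegree_eq_card_roots, hE, natDegree_map]
      rwa [e5] at e2
    have hElc : E.leadingCoeff = algebraMap K N D₀.leadingCoeff := by rw [hE, leadingCoeff_map]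
    rw [h2, hElc, map_pow]
    rw [hlc, hD, leadingCoeff_pow, map_pow] at h4
    rw [hk, hD, natDegree_pow]
    set l := algebraMap K N D₀.leadingCoeff with hl
    calc l ^ (p * (B + 4 * D₀.natDegree)) * X1 = l ^ (p * B) * (((l ^ 4) ^ p) ^ D₀.natDegree * X1) := by
          rw [← pow_mul, ← pow_mul, ← mul_assoc, ← pow_add]
          congr 2
          ring
      _ = l ^ (p * B) := by rw [h4, mul_one]

end Pool.Agent.Y730.AW
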